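import Pool.Agent.Results.MP_19ba80_al.PropertyANotWeakFDC
import Pool.Agent.Y134.FD.Coarse
import Pool.Agent.Y134.FD.Fol

/-!
# Property A without weak finite decomposition complexity: a coarse obstruction and an abundance of
groups

(1) Let `K` be an infinite finitely generated group with an injective homomorphism `K × K → K`. No
metric space (metric family) which contains a coarse image of `K` has weak FDC: neither the groups
that contain `K` as a subgroup, nor the groups in which `K` only embeds coarsely.

(2) There is one finitely generated amenable group `Γ` (Grigorchuk's group) such that for every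
countable group `H` with Property A the group `H × Γ` has Property A and does not have weak FDC. So
every countable group with Property A is a direct factor of a group with Property A which does not
have weak FDC, which is finitely generated (amenable) if `H` is.

(3) There are continuum many pairwise non-isomorphic countable amenable groups with Property A
without weak FDC.

The notion of weak FDC and the group are the ones of the file `PropertyANotWeakFDC`, where one such
group is given.
-/

set_option autoImplicit false

namespace Pool.Agent.Results.MP_19ba80_al.CoarseSquares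

open Pool.Agent.TH87.FDC Pool.Agent.Y134.FD Pool.Agent.Results.MP_19ba80_al.PropertyANotWeakFDC

/-- The group `G` has proper left-invariant metrics, and with each of them it has Property A but not
weak FDC. -/
def Answers (G : Type) [Group G] : Prop :=
  (∃ m : MetricSpace G, ProperLeftInvariant m) ∧
    ∀ m : MetricSpace G, ProperLeftInvariant m →
      PropertyA m ∧ ¬ WeakFDC (MetricFamily.single G m)

theorem coarse {K : Type} [Group K] {m : MetricSpace K} (hm : ProperLeftInvariant m)
    [Group.FG K] [Infinite K] (θ : K × K →* K) (hθ : Function.Injective θ) {𝒳 : MetricFamily}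
    (i : 𝒳.ι) (f : K → 𝒳.space i) (hf : IsCoarseEmbedding m f) : ¬ WeakFDC 𝒳 := by
  intro h
  obtain ⟨C, h1, h2, h3⟩ := exists_of_coarse hm θ hθ i f hf
  apply h3
  refine h C h1 ?_
  rintro 𝒴 ⟨d, hd⟩
  refine h2 𝒴 d fun r hr => ?_
  obtain ⟨𝒵, h4, D, h5⟩ := hd r hr
  refine ⟨D, 𝒵, h4, fun i k j => ?_⟩
  obtain ⟨l, ⟨e⟩⟩ := h5 i k j
  exact ⟨l, e, e.isometry⟩

theorem subgroup {G : Type} [Group G] {m : MetricSpace G} (hm : ProperLeftInvariant m) {K : Type}
    [Group K] [Group.FG K] [Infinite K] (θ : K × K →* K) (hθ : Function.Injective θ)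
    (ι : K →* G) (hι : Function.Injective ι) : ¬ WeakFDC (MetricFamily.single G m) := by
  have hK : ProperLeftInvariant (MetricSpace.induced ι hι m) := by
    refine ⟨fun g x y => ?_, fun R => ?_⟩
    · change m.dist (ι (g * x)) (ι (g * y)) = m.dist (ι x) (ι y)
      rw [map_mul, map_mul, hm.inv]
    · refine Set.Finite.subset ((hm.finite R).preimage hι.injOn) fun x hx => ?_
      change m.dist 1 (ι x) ≤ R
      have h1 : m.dist (ι 1) (ι x) ≤ R := hx
      rwa [map_one] at h1
  exact coarse hK θ hθ (𝒳 := MetricFamily.single G m) () ι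
    ⟨fun R => ⟨R, fun x y h => h⟩, fun R => ⟨R, fun x y h => h⟩⟩

theorem result :
    -- the obstruction
    (∀ (K : Type) [Group K] (m : MetricSpace K), ProperLeftInvariant m → Group.FG K →
      Infinite K → (∃ θ : K × K →* K, Function.Injective θ) →
      ∀ (𝒳 : MetricFamily) (i : 𝒳.ι) (f : K → 𝒳.space i), IsCoarseEmbedding m f →
        ¬ WeakFDC 𝒳) ∧
    -- every group with Property A is a direct factor of a counterexample
    (∃ (Γ : Type) (_ : Group Γ), Group.FG Γ ∧ Amenable Γ ∧ Answers Γ ∧
      ∀ (H : Type) [Group H] (m : MetricSpace H), ProperLeftInvariant m → PropertyA m →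
        Answers (H × Γ) ∧ Countable (H × Γ) ∧ (Group.FG H → Group.FG (H × Γ)) ∧
        (Amenable H → Amenable (H × Γ))) ∧
    -- continuum many counterexamples
    ∃ (I : Type) (G : I → Type) (_ : ∀ i, Group (G i)), Cardinal.mk I = Cardinal.continuum ∧
      (∀ i, Countable (G i) ∧ Amenable (G i) ∧ Answers (G i)) ∧
      ∀ i j, Nonempty (G i ≃* G j) → i = j := by
  obtain ⟨K, hK, hKfg, hKinf, θ, ι, hθ, hι⟩ := exists_square
  have hfg : Group.FG SB.G := by
    rw [Group.fg_iff_subgroup_fg]
    refine ⟨(Set.toFinite ({SB.a, SB.b, SB.c, SB.d} : Set (Equiv.Perm (List Bool)))).toFinset, ?_⟩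
    rw [Set.Finite.coe_toFinset]
    rfl
  obtain ⟨T, hT, hfin⟩ := Group.fg_iff.1 hfg
  have hm0 := properLeftInvariant_wordMetric hfin hT
  have hA0 : PropertyA (wordMetric T hT) := propertyA_of_folner hm0 folner_G
  have hans : ∀ (H : Type) [Group H] (m : MetricSpace H), ProperLeftInvariant m → PropertyA m →
      Answers (H × SB.G) ∧ Countable (H × SB.G) := by
    intro H _ m hm hA
    obtain ⟨m', hm'⟩ := exists_prod_metric hm hm0
    refine ⟨⟨⟨m', hm'⟩, fun m'' hm'' => ⟨propertyA_prod hm hm0 hA hA0 m'' hm'', ?_⟩⟩,
      countable_of_proper hm'⟩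
    have hinr : Function.Injective (MonoidHom.inr H SB.G) := fun x y h => (Prod.ext_iff.1 h).2
    exact subgroup hm'' θ hθ ((MonoidHom.inr H SB.G).comp ι) (by
      rw [MonoidHom.coe_comp]
      exact hinr.comp hι)
  refine ⟨fun K _ m hm h1 h2 h3 𝒳 i f hf => ?_, ⟨SB.G, inferInstance, hfg, folner_G, ?_, ?_⟩, ?_⟩
  · obtain ⟨θ, hθ⟩ := h3
    exact coarse hm θ hθ i f hf
  · exact ⟨⟨_, hm0⟩, fun m hm => ⟨propertyA_of_folner hm folner_G, subgroup hm θ hθ ι hι⟩⟩
  · intro H _ m hm hA
    exact ⟨(hans H m hm hA).1, (hans H m hm hA).2, fun h => inferInstance,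
      fun h => amenable_prod h folner_G⟩
  · refine ⟨Set OddPrime, fun S => Sm S × SB.G, fun S => inferInstance, mk_oddPrime,
      fun S => ⟨?_, ?_, ?_⟩, fun S T e => eq_of_iso e⟩
    · exact (hans (Sm S) (smMetric S) (sm_proper S) (sm_propertyA S)).2
    · exact amenable_prod (sm_folner S) folner_G
    · exact (hans (Sm S) (smMetric S) (sm_proper S) (sm_propertyA S)).1

end Pool.Agent.Results.MP_19ba80_al.CoarseSquares
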